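import Pool.Agent.H5.OR.Targets3
import Pool.Agent.H5.OR.All

set_option autoImplicit false

open scoped Classical

namespace Pool.Agent.H61.ORS

open ORg

theorem pf_MV (SE : T_SE) : T_MV := by
  intro I X P G _ _ _ _ w a iF iP hst hw hP ha
  have hWR := fun i => All.WR (X i) (w i) (hw i).1 (hw i).2
  choose X1 Z hX1 hZ α u hα hroot hwh hnt using hWR
  refine ⟨X1, Z, hX1, hZ, α, u, fun i => (iF i).comp (α i).symm.toMonoidHom, hα, hnt, hwh, ?_⟩
  have h1 := SE I (fun _ => Multiplicative ℤ) (fun i => FreeGroup (X i))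
    (fun i => FreeGroup (X1 i ⊕ Z i)) P G (fun i => zpowersHom P (a i))
    (fun i => zpowersHom (FreeGroup (X i)) (w i)) iP iF α hst
  have h2 : (fun i => (α i).toMonoidHom.comp (zpowersHom (FreeGroup (X i)) (w i))) =
      fun i => zpowersHom (FreeGroup (X1 i ⊕ Z i)) (fl (u i)) := by
    funext i
    refine MonoidHom.ext fun n => ?_
    have e : (α i) ((w i) ^ (Multiplicative.toAdd n)) = (fl (u i)) ^ (Multiplicative.toAdd n) := by
      rw [map_zpow, hα i]
    simpa [zpowersHom_apply] using e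
  rw [h2] at h1
  exact ⟨inferInstance, h1, hroot, fun i => Or.inl ⟨hwh i, hnt i⟩, hX1, hP, ha⟩

end Pool.Agent.H61.ORS
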